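import Pool.Agent.W990.EB.Stm

/-!
# Project EB, part Q4: the number of quadruples
-/

set_option autoImplicit false
open Finset

namespace Pool.Agent.W692.EB

open Pool.Agent.W990.EB

/-- the number of pairs whose sum is in a window -/
theorem card_window (K R : ℕ) (S : Finset ℕ) (h : ∀ n, r S n ≤ R) (n : ℕ) :
    ((S ×ˢ S).filter (fun x : ℕ × ℕ => |(n : ℤ) - (x.1 + x.2)| ≤ K)).card ≤ (2 * K + 1) * R := by
  have hmaps : ∀ x ∈ (S ×ˢ S).filter (fun x : ℕ × ℕ => |(n : ℤ) - (x.1 + x.2)| ≤ K),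
      x.1 + x.2 ∈ Icc (n - K) (n + K) := by
    intro x hx
    rw [mem_filter] at hx
    have h1 := abs_le.1 hx.2
    rw [mem_Icc]
    omega
  rw [Finset.card_eq_sum_card_fiberwise (f := fun x : ℕ × ℕ => x.1 + x.2)
    (t := Icc (n - K) (n + K)) (fun x hx => Finset.mem_coe.2 (hmaps x (Finset.mem_coe.1 hx)))]
  have h2 : ∀ k ∈ Icc (n - K) (n + K),
      (((S ×ˢ S).filter (fun x : ℕ × ℕ => |(n : ℤ) - (x.1 + x.2)| ≤ K)).filter
        (fun x : ℕ × ℕ => x.1 + x.2 = k)).card ≤ R := by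
    intro k _
    refine le_trans (Finset.card_le_card ?_) (h k)
    intro x hx
    rw [mem_filter, mem_filter] at hx
    rw [mem_filter]
    exact ⟨hx.1.1, hx.2⟩
  refine le_trans (Finset.sum_le_card_nsmul _ _ R h2) ?_
  rw [smul_eq_mul, Nat.card_Icc]
  apply Nat.mul_le_mul_right
  omega

theorem sum_pairs (R : ℕ) (S : Finset ℕ) (t : ℝ) (h : ∀ n, r S n ≤ R) (ht : 0 < t) (ht1 : t ≤ 1) :
    ∑ x ∈ S ×ˢ S, Real.exp (-(t * (((x.1 + x.2 : ℕ) : ℝ)) / 2)) ≤ R * (3 / t) := by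
  obtain ⟨M, hM⟩ : ∃ M : ℕ, ∀ x ∈ S ×ˢ S, x.1 + x.2 ∈ range M := by
    refine ⟨S.sup id + S.sup id + 1, fun x hx => ?_⟩
    rw [mem_product] at hx
    have h1 : x.1 ≤ S.sup id := Finset.le_sup (f := id) hx.1
    have h2 : x.2 ≤ S.sup id := Finset.le_sup (f := id) hx.2
    rw [mem_range]
    omega
  rw [← Finset.sum_fiberwise_of_maps_to hM]
  set q : ℝ := Real.exp (-(t / 2)) with hq
  have hq0 : 0 < q := Real.exp_pos _
  have hq1 : q < 1 := by rw [hq, Real.exp_lt_one_iff]; linarith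
  have h3 : ∀ n ∈ range M, ∑ x ∈ (S ×ˢ S).filter (fun x : ℕ × ℕ => x.1 + x.2 = n),
      Real.exp (-(t * (((x.1 + x.2 : ℕ) : ℝ)) / 2)) ≤ R * q ^ n := by
    intro n _
    have h4 : ∀ x ∈ (S ×ˢ S).filter (fun x : ℕ × ℕ => x.1 + x.2 = n),
        Real.exp (-(t * (((x.1 + x.2 : ℕ) : ℝ)) / 2)) = q ^ n := by
      intro x hx
      rw [(mem_filter.1 hx).2, hq, ← Real.exp_nat_mul]
      congr 1
      ring
    rw [Finset.sum_congr rfl h4, Finset.sum_const, nsmul_eq_mul]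
    apply mul_le_mul_of_nonneg_right _ (by positivity)
    exact_mod_cast h n
  refine le_trans (Finset.sum_le_sum h3) ?_
  rw [← Finset.mul_sum]
  apply mul_le_mul_of_nonneg_left _ (Nat.cast_nonneg _)
  have h5 : ∑ n ∈ range M, q ^ n ≤ (1 - q)⁻¹ := by
    rw [← tsum_geometric_of_lt_one hq0.le hq1]
    exact (summable_geometric_of_lt_one hq0.le hq1).sum_le_tsum _ (fun n _ => by positivity)
  refine le_trans h5 ?_
  have h6 : t / 3 ≤ 1 - q := by
    have h7 : 1 + t / 2 ≤ Real.exp (t / 2) := by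
      have := Real.add_one_le_exp (t / 2)
      linarith
    have h8 : q = (Real.exp (t / 2))⁻¹ := by rw [hq, Real.exp_neg]
    have h9 : q ≤ (1 + t / 2)⁻¹ := by
      rw [h8]
      exact inv_anti₀ (by positivity) h7
    have h10 : (1 + t / 2)⁻¹ ≤ 1 - t / 3 := by
      rw [inv_eq_one_div, div_le_iff₀ (by positivity)]
      nlinarith
    linarith
  have h11 : (1 - q)⁻¹ ≤ (t / 3)⁻¹ := inv_anti₀ (by positivity) h6
  rwa [inv_div] at h11

theorem q4 : S_Q4 := by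
  intro K R S t h ht ht1
  have key : ∀ a ∈ S, ∀ d ∈ S, ∑ b ∈ S, ∑ c ∈ S,
      (if |(a : ℤ) + d - b - c| ≤ K then Real.exp (-(t * (a + b + c + d) / 2)) else 0) ≤
        ((2 * (K : ℝ) + 1) * R) * Real.exp (-(t * (((a + d : ℕ) : ℝ)) / 2)) := by
    intro a _ d _
    rw [← Finset.sum_product']
    have h1 : ∀ x ∈ S ×ˢ S,
        (if |(a : ℤ) + d - x.1 - x.2| ≤ K then Real.exp (-(t * (a + x.1 + x.2 + d) / 2)) else 0) ≤
        if |((a + d : ℕ) : ℤ) - (x.1 + x.2)| ≤ K then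
          Real.exp (-(t * (((a + d : ℕ) : ℝ)) / 2)) else 0 := by
      intro x _
      have e : (a : ℤ) + d - x.1 - x.2 = ((a + d : ℕ) : ℤ) - (x.1 + x.2) := by
        push_cast; ring
      rw [e]
      split_ifs
      · apply Real.exp_le_exp.2
        have h2 : (0 : ℝ) ≤ x.1 := Nat.cast_nonneg _
        have h3 : (0 : ℝ) ≤ x.2 := Nat.cast_nonneg _
        push_cast
        nlinarith
      · exact le_rfl
    refine le_trans (Finset.sum_le_sum h1) ?_
    rw [← Finset.sum_filter, Finset.sum_const, nsmul_eq_mul]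
    apply mul_le_mul_of_nonneg_right _ (Real.exp_pos _).le
    have := card_window K R S h (a + d)
    exact_mod_cast this
  have e1 : ∑ a ∈ S, ∑ b ∈ S, ∑ c ∈ S, ∑ d ∈ S,
      (if |(a : ℤ) + d - b - c| ≤ K then Real.exp (-(t * (a + b + c + d) / 2)) else 0) =
      ∑ a ∈ S, ∑ d ∈ S, ∑ b ∈ S, ∑ c ∈ S,
      (if |(a : ℤ) + d - b - c| ≤ K then Real.exp (-(t * (a + b + c + d) / 2)) else 0) := by
    apply Finset.sum_congr rfl
    intro a _
    rw [Finset.sum_comm (s := S) (t := S) (f := fun d b => ∑ c ∈ S,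
      (if |(a : ℤ) + d - b - c| ≤ K then Real.exp (-(t * (a + b + c + d) / 2)) else 0))]
    apply Finset.sum_congr rfl
    intro b _
    exact Finset.sum_comm
  rw [e1]
  refine le_trans (Finset.sum_le_sum (fun a ha => Finset.sum_le_sum (fun d hd => key a ha d hd))) ?_
  have e2 : ∑ a ∈ S, ∑ d ∈ S, ((2 * (K : ℝ) + 1) * R) * Real.exp (-(t * (((a + d : ℕ) : ℝ)) / 2)) =
      ((2 * (K : ℝ) + 1) * R) *
        ∑ x ∈ S ×ˢ S, Real.exp (-(t * (((x.1 + x.2 : ℕ) : ℝ)) / 2)) := by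
    rw [Finset.sum_product, Finset.mul_sum]
    apply Finset.sum_congr rfl
    intro a _
    rw [Finset.mul_sum]
  rw [e2]
  refine le_trans (mul_le_mul_of_nonneg_left (sum_pairs R S t h ht ht1) (by positivity)) ?_
  apply le_of_eq
  ring

end Pool.Agent.W692.EB
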